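import Pool.Agent.Helper58.MAD.Defs

/-!
# (D) for the middle-dimensional cycles of the middle weight: definitions
-/

set_option autoImplicit false

open CategoryTheory MonoidalCategory Limits
open Pool.Agent.Helper15.Murre Pool.Agent.Helper58.MAD

universe w v u

namespace Pool.Agent.Mid

section one

variable {C : Type u} [Category.{v} C] [Preadditive C] [Linear ℚ C]
  [MonoidalCategory C] [SymmetricCategory C] [RigidCategory C] {F : Type w} [Field F]

/-- (B) for `CH_l(N)`: `CH_l(N_i) = 0` for `i < 2l` and every Chow-Kunneth decomposition of `N`. -/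
def BAt (W : MotivicHomology C F) (N : C) (l : ℤ) : Prop :=
  ∀ (D : CK W N) (i : ℤ), i < 2 * l → D.CH l i = ⊥

/-- (D) for `CH_l(N)`: `CH_l(N_{2l})_hom = 0` for every Chow-Kunneth decomposition of `N`. -/
def DAt (W : MotivicHomology C F) (N : C) (l : ℤ) : Prop :=
  ∀ D : CK W N, D.CH l (2 * l) ⊓ W.CHhom l N = ⊥

/-- (D*) for `CH_l(N)`: if `θ : N ⟶ N` is zero on `H_j(N)` for all `j ≠ 2l`, then `θ` is locally
nilpotent on `CH_l(N)_hom`. -/
def LocAt (W : MotivicHomology C F) (N : C) (l : ℤ) : Prop :=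
  ∀ θ : N ⟶ N, (∀ j, j ≠ 2 * l → ∀ x ∈ W.gr N j, (W.H.map θ).hom x = 0) →
    ∀ α ∈ W.CHhom l N, ∃ r : ℕ, α ≫ pw θ r = 0

end one

variable {F : Type w} [Field F] (G : Geometry.{w, v, u} F)

/-- Squares and Poincare duality. -/
structure Poincare : Prop where
  /-- the variety `Y × Y` -/
  square : ∀ {k : G.Fld} (Y : G.Var k), ∃ V : G.Var k, G.dim V = 2 * G.dim Y ∧
    Nonempty (G.h V ≅ G.h Y ⊗ G.h Y)
  /-- Poincare duality: `h(Y)ᘁ = h(Y)(-dim Y)` -/
  dual : ∀ {k : G.Fld} (Y : G.Var k), Nonempty ((G.h Y)ᘁ ≅ G.h Y ⊗ (G.mot k).W.T (-G.dim Y))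

/-- Murre's conjectures (A), (B), (C), (D) for all motives over all fields. -/
def Murre : Prop :=
  ∀ (k : G.Fld) (M : (G.mot k).C), MurreA (G.mot k).W M ∧ MurreC (G.mot k).W M ∧
    ∃ D : CK (G.mot k).W M, D.MurreB ∧ D.MurreD

/-- (A) for all motives over all fields. -/
def ConjA : Prop := ∀ (k : G.Fld) (M : (G.mot k).C), MurreA (G.mot k).W M

/-- The sign conjecture for all varieties over all fields. -/
def Sign : Prop := ∀ (k : G.Fld) (Y : G.Var k), SignConj (G.mot k).W (G.h Y)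

/-- Homologically trivial endomorphisms of motives are nilpotent. -/
def Nilpotent : Prop := ∀ k : G.Fld, NilHom (G.mot k).W

/-- (D) for the cycles of dimension `m` on the varieties `Z` of dimension `2m` over algebraically
closed fields: `CH_m(Z_{2m})_hom = 0` for every Chow-Kunneth decomposition of `h(Z)`. -/
def MiddleD (m : ℕ) : Prop :=
  ∀ (k : G.Fld) (Z : G.Var k), G.Closed k → G.dim Z = 2 * m → DAt (G.mot k).W (G.h Z) m

/-- (D*) for the cycles of dimension `m` on the varieties `Z` of dimension `2m` over algebraically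
closed fields: if `θ : h(Z) ⟶ h(Z)` is zero on `H_j(Z)` for all `j ≠ 2m`, then `θ` is locally
nilpotent on `CH_m(Z)_hom`. -/
def MiddleNil (m : ℕ) : Prop :=
  ∀ (k : G.Fld) (Z : G.Var k), G.Closed k → G.dim Z = 2 * m → LocAt (G.mot k).W (G.h Z) m

/-- (B) for the cycles of dimension `≤ m + 1` or of codimension `≤ m`: for all varieties `Y`, all
direct summands `N` of `h(Y)` and every Chow-Kunneth decomposition of `N`, `CH_l(N_i) = 0` for
`i < 2l`, if `l ≤ m + 1` or `dim Y - l ≤ m`. -/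
def RangeB (m : ℕ) : Prop :=
  ∀ (k : G.Fld) (Y : G.Var k) (N : (G.mot k).C), Nonempty (Retract N (G.h Y)) →
    ∀ l : ℤ, (l ≤ m + 1 ∨ G.dim Y ≤ l + m) → BAt (G.mot k).W N l

/-- (D) for the cycles of dimension `≤ m` or of codimension `≤ m`: for all varieties `Y`, all
direct summands `N` of `h(Y)` and every Chow-Kunneth decomposition of `N`,
`CH_l(N_{2l})_hom = 0`, if `l ≤ m` or `dim Y - l ≤ m`. -/
def RangeD (m : ℕ) : Prop :=
  ∀ (k : G.Fld) (Y : G.Var k) (N : (G.mot k).C), Nonempty (Retract N (G.h Y)) →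
    ∀ l : ℤ, (l ≤ m ∨ G.dim Y ≤ l + m) → DAt (G.mot k).W N l

end Pool.Agent.Mid
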