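import Pool.Agent.Mid.Trunc

/-!
# The case `2l > n`
-/

set_option autoImplicit false
set_option linter.unusedSectionVars false

open CategoryTheory MonoidalCategory Limits TensorProduct
open Pool.Agent.Helper15.Murre Pool.Agent.Helper58.MAD Pool.Agent.Helper90.MAD

universe w v u

namespace Pool.Agent.Mid

variable {C : Type u} [Category.{v} C] [Preadditive C] [Linear ℚ C]
  [MonoidalCategory C] [SymmetricCategory C] [MonoidalPreadditive C] [MonoidalLinear ℚ C]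
  [RigidCategory C] [HasBinaryBiproducts C] [IsIdempotentComplete C]
  {F : Type w} [Field F] {W : MotivicHomology C F}
variable {C' : Type u} [Category.{v} C'] [Preadditive C'] [Linear ℚ C']
  [MonoidalCategory C'] [SymmetricCategory C'] [MonoidalPreadditive C'] [MonoidalLinear ℚ C']
  [RigidCategory C'] [HasBinaryBiproducts C'] [IsIdempotentComplete C']
  {W' : MotivicHomology C' F} {Φ : C ⥤ C'}

/-- the members: `(ζ a ▷ 1)(1 - σ w'' L)^M = 0` -/
theorem member_van (hA : ∀ M : C, MurreA W M) (hN : NilHom W)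
    {N : C} {n : ℤ} {L : N ⟶ N ⊗ W.T 1} {V : C} (m : Member W N n L V)
    (σ : N ⊗ W.T 1 ⟶ N)
    (hσ : ∀ j, n + 1 < j → ∀ y ∈ W.gr N j, (W.H.map (L ≫ σ)).hom y = y)
    (l : ℤ) (hV : VanAt W (V ⊗ W.T 1) (l + 1)) (hl : n < 2 * l) {w : N ⟶ N}
    (hw : IsTrunc W w (2 * l + 2)) (ζ : W.CH l V) :
    ∃ M : ℕ, ((ζ ≫ m.a) ▷ W.T 1) ≫ pw (𝟙 _ - σ ≫ w ≫ L) M = 0 := by
  obtain ⟨g, hg⟩ := exists_trunc (hA (V ⊗ W.T 1)) (2 * l + 2)
  let u : V ⊗ W.T 1 ⟶ V ⊗ W.T 1 := (m.a ▷ W.T 1) ≫ σ ≫ w ≫ m.b + (m.e ▷ W.T 1)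
  have hgu : W.H.map (g ≫ u ≫ g) = W.H.map g := by
    apply W.hext
    intro j z hz
    rw [W.map_comp_apply]
    by_cases hj : j < 2 * l + 2
    · rw [hg.zero j hj z hz, map_zero]
    · rw [hg.one j (by omega) z hz, W.map_comp_apply]
      obtain ⟨y, hy, hzy⟩ := m.split j (by omega) z hz
      have hu : (W.H.map u).hom z = z := by
        change (W.H.map ((m.a ▷ W.T 1) ≫ σ ≫ w ≫ m.b + (m.e ▷ W.T 1))).hom z = z
        rw [W.map_add_apply]
        have h1 : (W.H.map (m.a ▷ W.T 1)).hom z = (W.H.map L).hom y := by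
          conv_lhs => rw [hzy]
          rw [map_add, ← W.map_comp_apply, ← W.map_comp_apply, m.b_a, ← comp_whiskerRight, m.e_a]
          have h2 : (0 : V ⟶ N) ▷ W.T 1 = 0 := MonoidalPreadditive.zero_whiskerRight
          rw [h2, W.map_zero_apply, add_zero]
        rw [W.map_comp_apply, h1, W.map_comp_apply, ← W.map_comp_apply L σ,
          hσ j (by omega) y hy, W.map_comp_apply, hw.one j (by omega) y hy]
        exact hzy.symm
      rw [hu, hg.one j (by omega) z hz]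
  obtain ⟨M, hM⟩ := unip hN (A := W.T l ⊗ W.T 1) Set.univ g u hg.idem (fun _ _ => trivial)
    (fun y _ => hV.trunc hg (by omega) (W.tateAdd l 1) y) hgu
  refine ⟨M, ?_⟩
  have hc : (𝟙 _ - u) ≫ (m.a ▷ W.T 1) = (m.a ▷ W.T 1) ≫ (𝟙 _ - σ ≫ w ≫ L) := by
    change (𝟙 _ - ((m.a ▷ W.T 1) ≫ σ ≫ w ≫ m.b + (m.e ▷ W.T 1))) ≫ (m.a ▷ W.T 1) = _
    have h2 : (0 : V ⟶ N) ▷ W.T 1 = 0 := MonoidalPreadditive.zero_whiskerRight
    have h3 : (m.e ▷ W.T 1) ≫ (m.a ▷ W.T 1) = 0 := by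
      rw [← comp_whiskerRight, m.e_a, h2]
    rw [Preadditive.sub_comp, Preadditive.add_comp, h3, add_zero, Preadditive.comp_sub,
      Category.id_comp, Category.comp_id]
    congr 1
    simp only [Category.assoc]
    rw [m.b_a]
  have h4 := pw_comp hc M
  have h5 : ((ζ ≫ m.a) ▷ W.T 1) = (ζ ▷ W.T 1) ≫ (m.a ▷ W.T 1) := comp_whiskerRight _ _ _
  rw [h5, Category.assoc, ← h4, ← Category.assoc, hM _ trivial, zero_comp]

/-- weights `< 2l`, `2l > n` -/
theorem van_high (hA : ∀ M : C, MurreA W M) (hN : NilHom W) (hA' : ∀ M : C', MurreA W' M)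
    (hN' : NilHom W') (B : BaseChange W W' Φ)
    {N : C} {n : ℤ} {L : N ⟶ N ⊗ W.T 1} {P : C'} (S : GenericSection W W' Φ N n L P)
    {ι : Type u} {V : ι → C} (hloc : S.Localisation V) (σ : N ⊗ W.T 1 ⟶ N)
    (hσ : ∀ j, n + 1 < j → ∀ y ∈ W.gr N j, (W.H.map (L ≫ σ)).hom y = y)
    (l : ℤ) (hP : GoodAt W' (P ⊗ W'.T 1) l) (hV : ∀ i, VanAt W (V i ⊗ W.T 1) (l + 1))
    (hl : n < 2 * l) : VanAt W N l := by
  intro f hf hf0 α
  have hadd := B.additive
  have hfaith := B.faithful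
  obtain ⟨w', hw'⟩ := exists_trunc (hA N) (2 * l + 1)
  obtain ⟨w'', hw''⟩ := exists_trunc (hA N) (2 * l + 2)
  obtain ⟨g, hg⟩ := exists_trunc (hA' (P ⊗ W'.T 1)) (2 * l + 1)
  set x : W.T l ⟶ N := α ≫ f with hx
  have hxf : x ≫ f = x := by rw [hx, Category.assoc, hf]
  have hxH : W.H.map x = 0 := hom_zero_of_lt f hf0 α
  -- (1) restriction to the generic section
  let u : P ⊗ W'.T 1 ⟶ P ⊗ W'.T 1 := S.a ≫ Φ.map (σ ≫ w') ≫ S.b
  have hgu : W'.H.map (g ≫ u ≫ g) = W'.H.map g := by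
    apply W'.hext
    intro j z hz
    rw [W'.map_comp_apply]
    by_cases hj : j < 2 * l + 1
    · rw [hg.zero j hj z hz, map_zero]
    · rw [hg.one j (by omega) z hz, W'.map_comp_apply]
      obtain ⟨y, hy, hzy⟩ := S.surj_b j (by omega) z hz
      have hu : (W'.H.map u).hom z = z := by
        change (W'.H.map (S.a ≫ Φ.map (σ ≫ w') ≫ S.b)).hom z = z
        rw [← hzy, ← W'.map_comp_apply]
        have h1 : S.b ≫ S.a ≫ Φ.map (σ ≫ w') ≫ S.b = Φ.map ((L ≫ σ) ≫ w') ≫ S.b := by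
          rw [← Category.assoc, S.b_a, ← Category.assoc, ← Φ.map_comp]
          simp only [Category.assoc]
        rw [h1, W'.map_comp_apply, bc_id B (f := (L ≫ σ) ≫ w') (j := j) (fun y hy => by
          rw [W.map_comp_apply, hσ j (by omega) y hy, hw'.one j (by omega) y hy]) y hy]
      rw [hu, hg.one j (by omega) z hz]
  obtain ⟨m, hm⟩ := unip hN' (A := Φ.obj (W.T l)) {y | W'.H.map y = 0} g u hg.idem
    (fun y hy => by
      change W'.H.map (y ≫ (𝟙 _ - u)) = 0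
      rw [Functor.map_comp, show W'.H.map y = 0 from hy, zero_comp])
    (fun y hy => hP.trunc hg le_rfl (B.tate l) y (by
      rw [Functor.map_comp, show W'.H.map y = 0 from hy, zero_comp])) hgu
  let z : W.T l ⟶ N := x ≫ pw (𝟙 _ - L ≫ σ ≫ w') m
  have hzb : Φ.map z ≫ S.b = 0 := by
    change Φ.map (x ≫ pw (𝟙 _ - L ≫ σ ≫ w') m) ≫ S.b = 0
    have hc : Φ.map (𝟙 _ - L ≫ σ ≫ w') ≫ S.b = S.b ≫ (𝟙 _ - u) := by
      change _ = S.b ≫ (𝟙 _ - S.a ≫ Φ.map (σ ≫ w') ≫ S.b)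
      rw [Φ.map_sub, CategoryTheory.Functor.map_id, Preadditive.sub_comp, Preadditive.comp_sub,
        Category.id_comp, Category.comp_id]
      congr 1
      rw [← Category.assoc S.b, S.b_a, Φ.map_comp L, Category.assoc]
    rw [Φ.map_comp, map_pw, Category.assoc, pw_comp hc m, ← Category.assoc]
    apply hm
    change W'.H.map (Φ.map x ≫ S.b) = 0
    rw [Functor.map_comp, bc_hom B hxH, zero_comp]
  -- (2) the members
  have hzM : ∃ M : ℕ, (z ▷ W.T 1) ≫ pw (𝟙 _ - σ ≫ w'' ≫ L) M = 0 := by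
    clear_value z
    have key := hloc l z hzb
    clear hzb
    induction key using Submodule.span_induction with
    | mem γ hγ =>
      obtain ⟨i, mm, ζ, rfl⟩ := hγ
      exact member_van hA hN mm σ hσ l (hV i) hl hw'' ζ
    | zero =>
      refine ⟨0, ?_⟩
      have h2 : (0 : W.T l ⟶ N) ▷ W.T 1 = 0 := MonoidalPreadditive.zero_whiskerRight
      rw [h2, zero_comp]
    | add γ δ _ _ hγ hδ =>
      obtain ⟨M, hM⟩ := hγ
      obtain ⟨M', hM'⟩ := hδ
      refine ⟨max M M', ?_⟩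
      rw [MonoidalPreadditive.add_whiskerRight, Preadditive.add_comp,
        pw_zero_mono _ _ (le_max_left M M') hM, pw_zero_mono _ _ (le_max_right M M') hM',
        add_zero]
    | smul q γ _ hγ =>
      obtain ⟨M, hM⟩ := hγ
      refine ⟨M, ?_⟩
      rw [MonoidalLinear.smul_whiskerRight, Linear.smul_comp, hM, smul_zero]
  obtain ⟨M, hM⟩ := hzM
  -- (3) conclusion
  set f₁ : N ⊗ W.T 1 ⟶ N ⊗ W.T 1 := f ▷ W.T 1 with hf₁
  have hf₁0 : ∀ j, 2 * l + 2 ≤ j → ∀ x ∈ W.gr (N ⊗ W.T 1) j, (W.H.map f₁).hom x = 0 :=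
    fun j hj => tw_zero f (hf0 (j - 2 * 1) (by omega))
  let R : N ⊗ W.T 1 ⟶ N ⊗ W.T 1 :=
    𝟙 _ - (pw (𝟙 _ - L ≫ σ ≫ w') m ▷ W.T 1) ≫ pw (𝟙 _ - σ ≫ w'' ≫ L) M
  have hxR : (x ▷ W.T 1) ≫ R = x ▷ W.T 1 := by
    change (x ▷ W.T 1) ≫ (𝟙 _ - (pw (𝟙 _ - L ≫ σ ≫ w') m ▷ W.T 1) ≫ pw (𝟙 _ - σ ≫ w'' ≫ L) M) = _
    rw [Preadditive.comp_sub, Category.comp_id, ← Category.assoc, ← comp_whiskerRight]
    rw [show (x ≫ pw (𝟙 _ - L ≫ σ ≫ w') m) ▷ W.T 1 = z ▷ W.T 1 from rfl, hM, sub_zero]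
  have hR : ∀ j, j < 2 * l + 2 → ∀ z ∈ W.gr (N ⊗ W.T 1) j, (W.H.map R).hom z = 0 := by
    intro j hj z hz
    change (W.H.map (𝟙 _ - _)).hom z = 0
    rw [map_one_sub, W.map_comp_apply]
    have h1 : (W.H.map (pw (𝟙 _ - L ≫ σ ≫ w') m ▷ W.T 1)).hom z = z := by
      refine tw_id _ (pw_id _ ?_ m) z hz
      intro y hy
      rw [map_one_sub, ← Category.assoc, W.map_comp_apply,
        hw'.zero (j - 2 * 1) (by omega) _ (W.map_gr _ _ _ hy), sub_zero]
    have h2 : (W.H.map (pw (𝟙 _ - σ ≫ w'' ≫ L) M)).hom z = z := by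
      refine pw_id _ ?_ M z hz
      intro y hy
      rw [map_one_sub, W.map_comp_apply, W.map_comp_apply,
        hw''.zero j hj _ (W.map_gr _ _ _ hy), map_zero, sub_zero]
    rw [h1, h2, sub_self]
  have hx₁ : x ▷ W.T 1 = 0 := by
    apply nil_kill hN (x ▷ W.T 1) (f₁ ≫ R ≫ f₁)
    · apply W.hext
      intro j z hz
      rw [W.map_comp_apply]
      by_cases hj : 2 * l + 2 ≤ j
      · rw [hf₁0 j hj z hz, map_zero]
        rfl
      · rw [W.map_comp_apply, hR j (by omega) _ (W.map_gr _ _ _ hz), map_zero]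
        rfl
    · have h3 : (x ▷ W.T 1) ≫ f₁ = x ▷ W.T 1 := by
        rw [hf₁, ← comp_whiskerRight, hxf]
      rw [← Category.assoc, h3, ← Category.assoc, hxR, h3]
  exact whisker_faithful (W := W) x 1 hx₁

/-- weight `2l > n` -/
theorem pure_high (hA' : ∀ M : C', MurreA W' M)
    (hN' : NilHom W') (B : BaseChange W W' Φ)
    {N : C} {n : ℤ} {L : N ⟶ N ⊗ W.T 1} {P : C'} (S : GenericSection W W' Φ N n L P)
    (l : ℤ) (σ : N ⊗ W.T 1 ⟶ N)
    (hσ : ∀ y ∈ W.gr N (2 * l), (W.H.map (L ≫ σ)).hom y = y)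
    (hP : GoodAt W' (P ⊗ W'.T 1) l) : PureAt W N l := by
  intro f hf hf0 α hα
  have hadd := B.additive
  have hfaith := B.faithful
  obtain ⟨g, hg⟩ := exists_trunc (hA' (P ⊗ W'.T 1)) (2 * l + 1)
  set x : W.T l ⟶ N := α ≫ f with hx
  have hxf : x ≫ f = x := by rw [hx, Category.assoc, hf]
  have hyg : (Φ.map x ≫ S.b) ≫ g = Φ.map x ≫ S.b :=
    hP.trunc hg le_rfl (B.tate l) _ (by
      rw [Functor.map_comp, Functor.map_comp, bc_hom B hα, zero_comp, zero_comp])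
  have hx0 : Φ.map x = 0 := by
    apply nil_kill hN' (Φ.map x) (Φ.map (f ≫ (𝟙 N - L ≫ σ) ≫ f) +
      Φ.map f ≫ S.b ≫ g ≫ S.a ≫ Φ.map (σ ≫ f))
    · have hadd' := W'.additive
      have h1 : W.H.map (f ≫ (𝟙 N - L ≫ σ) ≫ f) = 0 := by
        apply W.hext
        intro j y hy
        rw [W.map_comp_apply]
        by_cases hj : j = 2 * l
        · subst hj
          rw [W.map_comp_apply, map_one_sub, hσ _ (W.map_gr _ _ _ hy), sub_self, map_zero]
          rfl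
        · rw [hf0 j hj y hy, map_zero]
          rfl
      rw [Functor.map_add, bc_hom B h1, zero_add]
      apply W'.hext
      intro j z hz
      rw [W'.map_comp_apply]
      by_cases hj : j = 2 * l
      · subst hj
        rw [W'.map_comp_apply, W'.map_comp_apply,
          hg.zero (2 * l) (by omega) _ (W'.map_gr _ _ _ (W'.map_gr _ _ _ hz)), map_zero]
        rfl
      · rw [bc_zero B (hf0 j hj) z hz, map_zero]
        rfl
    · have h1 : Φ.map x ≫ Φ.map f = Φ.map x := by rw [← Φ.map_comp, hxf]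
      rw [Preadditive.comp_add]
      have h2 : Φ.map x ≫ Φ.map f ≫ S.b ≫ g ≫ S.a ≫ Φ.map (σ ≫ f) =
          Φ.map x ≫ Φ.map (L ≫ σ ≫ f) := by
        have h3 : Φ.map x ≫ Φ.map f ≫ S.b ≫ g ≫ S.a ≫ Φ.map (σ ≫ f) =
            ((Φ.map x ≫ S.b) ≫ g) ≫ S.a ≫ Φ.map (σ ≫ f) := by
          rw [reassoc_of% h1]
          simp only [Category.assoc]
        rw [h3, hyg, Category.assoc, ← Category.assoc S.b, S.b_a, ← Φ.map_comp]
      rw [h2, Φ.map_comp f, reassoc_of% h1, ← Φ.map_comp, ← Φ.map_comp, ← Φ.map_add]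
      congr 1
      rw [← Preadditive.comp_add]
      have h4 : (𝟙 N - L ≫ σ) ≫ f + L ≫ σ ≫ f = f := by
        rw [Preadditive.sub_comp, Category.id_comp, Category.assoc]
        abel
      rw [h4, hxf]
  apply hfaith.map_injective
  rw [Φ.map_zero]
  exact hx0

end Pool.Agent.Mid
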