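import Pool.Agent.Mid.Trunc

/-!
# The case `2l ≤ n`
-/

set_option autoImplicit false
set_option linter.unusedSectionVars false

open CategoryTheory MonoidalCategory Limits TensorProduct
open Pool.Agent.Helper15.Murre Pool.Agent.Helper58.MAD Pool.Agent.Helper90.MAD

universe w v u

namespace Pool.Agent.Mid

variable {C : Type u} [Category.{v} C] [Preadditive C] [Linear ℚ C]
  [MonoidalCategory C] [SymmetricCategory C] [MonoidalPreadditive C] [MonoidalLinear ℚ C]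
  [RigidCategory C] [HasBinaryBiproducts C] [IsIdempotentComplete C]
  {F : Type w} [Field F] {W : MotivicHomology C F}
variable {C' : Type u} [Category.{v} C'] [Preadditive C'] [Linear ℚ C']
  [MonoidalCategory C'] [SymmetricCategory C'] [MonoidalPreadditive C'] [MonoidalLinear ℚ C']
  [RigidCategory C'] [HasBinaryBiproducts C'] [IsIdempotentComplete C']
  {W' : MotivicHomology C' F} {Φ : C ⥤ C'}

/-- the common part: `f` has weights `< r - 2 ≤ n`, and the classes of `h(X)(1)` which come from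
`α` only see the weights `≥ r` -/
theorem low_aux (hA' : ∀ M : C', MurreA W' M) (hN' : NilHom W') (B : BaseChange W W' Φ)
    {N : C} {n : ℤ} {L : N ⟶ N ⊗ W.T 1} {P : C'} (S : GenericSection W W' Φ N n L P)
    (ρ : N ⊗ W.T 1 ⟶ N)
    (hρ : ∀ j, j ≤ n + 1 → ∀ z ∈ W.gr (N ⊗ W.T 1) j, (W.H.map (ρ ≫ L)).hom z = z)
    (l r : ℤ) (hl : r ≤ n + 2) (f : N ⟶ N) (hf : f ≫ f = f)
    (hf0 : ∀ j, r ≤ j + 2 → ∀ x ∈ W.gr N j, (W.H.map f).hom x = 0) (α : W.CH l N)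
    (hP : ∀ (w : P ⊗ W'.T 1 ⟶ P ⊗ W'.T 1), IsTrunc W' w r →
      ∀ y : Φ.obj (N ⊗ W.T 1) ⟶ P ⊗ W'.T 1,
        (Φ.map ((α ≫ f) ▷ W.T 1) ≫ y) ≫ w = Φ.map ((α ≫ f) ▷ W.T 1) ≫ y) :
    α ≫ f = 0 := by
  have hadd := B.additive
  have hfaith := B.faithful
  obtain ⟨w, hw⟩ := exists_trunc (hA' (P ⊗ W'.T 1)) r
  set f₁ : N ⊗ W.T 1 ⟶ N ⊗ W.T 1 := f ▷ W.T 1 with hf₁
  have hf₁f : f₁ ≫ f₁ = f₁ := by rw [hf₁, ← comp_whiskerRight, hf]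
  have hf₁0 : ∀ j, r ≤ j → ∀ x ∈ W.gr (N ⊗ W.T 1) j, (W.H.map f₁).hom x = 0 :=
    fun j hj => tw_zero f (hf0 (j - 2 * 1) (by omega))
  let s : Φ.obj (N ⊗ W.T 1) ⟶ P ⊗ W'.T 1 := Φ.map (f₁ ≫ ρ) ≫ S.b
  let t : P ⊗ W'.T 1 ⟶ Φ.obj (N ⊗ W.T 1) := S.a ≫ Φ.map f₁
  have hst : s ≫ t = Φ.map (f₁ ≫ ρ ≫ L ≫ f₁) := by
    change (Φ.map (f₁ ≫ ρ) ≫ S.b) ≫ S.a ≫ Φ.map f₁ = _
    have h1 : (Φ.map (f₁ ≫ ρ) ≫ S.b) ≫ S.a ≫ Φ.map f₁
        = Φ.map (f₁ ≫ ρ) ≫ (S.b ≫ S.a) ≫ Φ.map f₁ := by simp only [Category.assoc]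
    rw [h1, S.b_a, ← Φ.map_comp, ← Φ.map_comp]
    simp only [Category.assoc]
  -- the class `x`
  let x : Φ.obj (W.T l ⊗ W.T 1) ⟶ Φ.obj (N ⊗ W.T 1) := Φ.map ((α ≫ f) ▷ W.T 1)
  have hxf : x ≫ Φ.map f₁ = x := by
    change Φ.map ((α ≫ f) ▷ W.T 1) ≫ Φ.map f₁ = Φ.map ((α ≫ f) ▷ W.T 1)
    rw [← Φ.map_comp, hf₁, ← comp_whiskerRight, Category.assoc, hf]
  have hxs : (x ≫ s) ≫ w = x ≫ s := hP w hw s
  let E : Φ.obj (N ⊗ W.T 1) ⟶ Φ.obj (N ⊗ W.T 1) :=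
    Φ.map (f₁ - f₁ ≫ ρ ≫ L ≫ f₁) + s ≫ w ≫ t
  have hxE : x ≫ E = x := by
    change x ≫ (Φ.map (f₁ - f₁ ≫ ρ ≫ L ≫ f₁) + s ≫ w ≫ t) = x
    rw [Preadditive.comp_add, Φ.map_sub, Preadditive.comp_sub, hxf]
    have h1 : x ≫ s ≫ w ≫ t = x ≫ s ≫ t := by
      have h2 : x ≫ s ≫ w ≫ t = ((x ≫ s) ≫ w) ≫ t := by simp only [Category.assoc]
      rw [h2, hxs, Category.assoc]
    rw [h1, hst]
    abel
  have hE : W'.H.map E = 0 := by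
    have hadd' := W'.additive
    change W'.H.map (Φ.map (f₁ - f₁ ≫ ρ ≫ L ≫ f₁) + s ≫ w ≫ t) = 0
    have h1 : W.H.map (f₁ - f₁ ≫ ρ ≫ L ≫ f₁) = 0 := by
      apply W.hext
      intro j z hz
      rw [W.map_sub_apply]
      have h2 : f₁ ≫ ρ ≫ L ≫ f₁ = f₁ ≫ (ρ ≫ L) ≫ f₁ := by simp only [Category.assoc]
      rw [h2, W.map_comp_apply, W.map_comp_apply]
      by_cases hj : r ≤ j
      · rw [hf₁0 j hj z hz]
        simp
      · rw [hρ j (by omega) _ (W.map_gr _ _ _ hz), ← W.map_comp_apply, hf₁f, sub_self]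
        rfl
    rw [Functor.map_add, bc_hom B h1, zero_add]
    apply W'.hext
    intro j z hz
    rw [W'.map_comp_apply, W'.map_comp_apply]
    have hsz := W'.map_gr s j z hz
    by_cases hj : j < r
    · rw [hw.zero j hj _ hsz, map_zero]
      rfl
    · rw [hw.one j (by omega) _ hsz]
      change (W'.H.map (S.a ≫ Φ.map f₁)).hom _ = _
      rw [W'.map_comp_apply]
      exact bc_zero B (hf₁0 j (by omega)) _ (W'.map_gr _ _ _ hsz)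
  have hx0 : x = 0 := nil_kill hN' x E hE hxE
  apply whisker_faithful (W := W) (α ≫ f) 1
  apply hfaith.map_injective
  rw [Φ.map_zero]
  exact hx0

/-- weights `< 2l`, `2l ≤ n` -/
theorem van_low (hA' : ∀ M : C', MurreA W' M) (hN' : NilHom W') (B : BaseChange W W' Φ)
    {N : C} {n : ℤ} {L : N ⟶ N ⊗ W.T 1} {P : C'} (S : GenericSection W W' Φ N n L P)
    (ρ : N ⊗ W.T 1 ⟶ N)
    (hρ : ∀ j, j ≤ n + 1 → ∀ z ∈ W.gr (N ⊗ W.T 1) j, (W.H.map (ρ ≫ L)).hom z = z)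
    (l : ℤ) (hP : VanAt W' (P ⊗ W'.T 1) (l + 1)) (hl : 2 * l ≤ n) : VanAt W N l := by
  intro f hf hf0 α
  refine low_aux hA' hN' B S ρ hρ l (2 * l + 2) (by omega) f hf (fun j hj => hf0 j (by omega)) α
    (fun w hw y => ?_)
  exact hP.trunc hw (by omega) (B.tate (l + 1) ≪≫ Φ.mapIso (W.tateAdd l 1)) _

/-- weights `≤ 2l`, `2l < n` -/
theorem good_low (hA' : ∀ M : C', MurreA W' M) (hN' : NilHom W') (B : BaseChange W W' Φ)
    {N : C} {n : ℤ} {L : N ⟶ N ⊗ W.T 1} {P : C'} (S : GenericSection W W' Φ N n L P)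
    (ρ : N ⊗ W.T 1 ⟶ N)
    (hρ : ∀ j, j ≤ n + 1 → ∀ z ∈ W.gr (N ⊗ W.T 1) j, (W.H.map (ρ ≫ L)).hom z = z)
    (l : ℤ) (hP : GoodAt W' (P ⊗ W'.T 1) (l + 1)) (hl : 2 * l < n) : GoodAt W N l := by
  intro f hf hf0 α hα
  refine low_aux hA' hN' B S ρ hρ l (2 * l + 3) (by omega) f hf (fun j hj => hf0 j (by omega)) α
    (fun w hw y => ?_)
  refine hP.trunc hw (by omega) (B.tate (l + 1) ≪≫ Φ.mapIso (W.tateAdd l 1)) _ ?_
  have h1 : W.H.map ((α ≫ f) ▷ W.T 1) = 0 := by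
    have := W.H_tensor_zero (α ≫ f) (𝟙 (W.T 1)) hα
    rwa [tensorHom_id] at this
  rw [Functor.map_comp, Functor.map_comp, bc_hom B h1, zero_comp, zero_comp]

end Pool.Agent.Mid
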