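import Pool.Agent.Mid.Trunc
import Pool.Agent.Mid.Defs

/-!
# Nilpotence from (D) for the middle-dimensional cycles on `Y × Y`
-/

set_option autoImplicit false
set_option linter.unusedSectionVars false

open CategoryTheory MonoidalCategory Limits TensorProduct
open Pool.Agent.Helper15.Murre Pool.Agent.Helper58.MAD Pool.Agent.Helper90.MAD
open Pool.Agent.Helper58.MAD.NilAux

universe w v u

namespace Pool.Agent.Mid

section defs

variable {C : Type u} [Category.{v} C] [Preadditive C] [Linear ℚ C]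
  [MonoidalCategory C] [SymmetricCategory C] [RigidCategory C] {F : Type w} [Field F]

/-- nilpotence of the homologically trivial endomorphisms of `N` -/
def NilAt (W : MotivicHomology C F) (N : C) : Prop :=
  ∀ x : N ⟶ N, W.H.map x = 0 → ∃ m : ℕ, pw x m = 0

end defs

variable {C : Type u} [Category.{v} C] [Preadditive C] [Linear ℚ C]
  [MonoidalCategory C] [SymmetricCategory C] [MonoidalPreadditive C] [MonoidalLinear ℚ C]
  [RigidCategory C] [HasBinaryBiproducts C] [IsIdempotentComplete C]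
  {F : Type w} [Field F] {W : MotivicHomology C F}
variable {C' : Type u} [Category.{v} C'] [Preadditive C'] [Linear ℚ C']
  [MonoidalCategory C'] [SymmetricCategory C'] [MonoidalPreadditive C'] [MonoidalLinear ℚ C']
  [RigidCategory C'] [HasBinaryBiproducts C'] [IsIdempotentComplete C']
  {W' : MotivicHomology C' F} {Φ : C ⥤ C'}

theorem DAt.kill {N : C} {l : ℤ} (h : DAt W N l) (D : CK W N) (α : W.CH l N)
    (h1 : α ≫ D.p (2 * l) = α) (h2 : W.H.map α = 0) : α = 0 := by
  have : α ∈ D.CH l (2 * l) ⊓ W.CHhom l N := ⟨D.mem_CH.2 h1, h2⟩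
  rw [h D] at this
  simpa using this

theorem DAt.of_kill {N : C} {l : ℤ} (h : ∀ (D : CK W N) (α : W.CH l N),
    α ≫ D.p (2 * l) = α → W.H.map α = 0 → α = 0) : DAt W N l := by
  intro D
  rw [eq_bot_iff]
  rintro α ⟨h1, h2⟩
  have := h D α (D.mem_CH.1 h1) h2
  simpa using this

theorem DAt.ofIso {M N : C} {l : ℤ} (e : M ≅ N) (h : DAt W M l) : DAt W N l := by
  apply DAt.of_kill
  intro D α h1 h2
  have h3 := h.kill (D.ofIso e.symm) (α ≫ e.inv) (by
    change (α ≫ e.inv) ≫ (e.hom ≫ D.p (2 * l) ≫ e.inv) = _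
    simp only [Category.assoc, Iso.inv_hom_id_assoc]
    rw [← Category.assoc, h1]) (by rw [Functor.map_comp, h2, zero_comp])
  have h4 := congrArg (· ≫ e.hom) h3
  simpa using h4

theorem DAt.twist {N : C} {l : ℤ} (h : DAt W N l) (m : ℤ) : DAt W (N ⊗ W.T m) (l + m) := by
  apply DAt.of_kill
  intro D α h1 h2
  apply shiftCH_injective
  have h3 : ∀ (k : ℤ) (_ : k = l) (E : CK W N) (β : W.CH k N), β ≫ E.p (2 * k) = β →
      W.H.map β = 0 → β = 0 := by
    rintro _ rfl E β
    exact h.kill E β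
  refine h3 _ (by ring) ((D.twist (-m)).ofIso (untwist W N m)) _ ?_ (shiftCH_hom _ m _ h2)
  have key : ∀ (k a : ℤ) (γ : W.CH k (N ⊗ W.T m)), shiftCH W k m (γ ≫ D.p a) =
      shiftCH W k m γ ≫ ((D.twist (-m)).ofIso (untwist W N m)).p (a + 2 * (-m)) := by
    intro k a γ
    change _ = _ ≫ (untwist W N m).inv ≫ (D.twist (-m)).p (a + 2 * (-m)) ≫
      (untwist W N m).hom
    rw [CK.twist_p, add_sub_cancel_right]
    unfold shiftCH
    simp only [comp_whiskerRight, Category.assoc, Iso.hom_inv_id_assoc]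
  have key' := key (l + m) (2 * (l + m)) α
  rw [h1] at key'
  have h4 : 2 * (l + m - m) = 2 * (l + m) + 2 * (-m) := by ring
  have h5 : ((D.twist (-m)).ofIso (untwist W N m)).p (2 * (l + m - m)) =
      ((D.twist (-m)).ofIso (untwist W N m)).p (2 * (l + m) + 2 * (-m)) := by rw [h4]
  rw [h5]
  exact key'.symm

/-- a homologically trivial endomorphism has no diagonal blocks -/
theorem DAt.diag {M : C} (h : DAt W (M ⊗ Mᘁ) 0) (D : CK W M) (g : M ⟶ M) (i : ℤ)
    (hg : W.H.map g = 0) : D.p i ≫ g ≫ D.p i = 0 := by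
  apply name_injective (W := W)
  apply h.kill (D.tensor D.dual)
  · rw [mul_zero]
    change _ ≫ (∑ a ∈ D.s, D.p a ⊗ₘ (D.p (-(0 - a)))ᘁ) = _
    rw [Preadditive.comp_sum]
    by_cases hi : i ∈ D.s
    · rw [Finset.sum_eq_single_of_mem i hi]
      · rw [name_comp]
        congr 1
        have : -(0 - i) = i := by ring
        rw [this]
        simp only [Category.assoc, D.idem]
        rw [← Category.assoc, D.idem]
      · intro a _ ha
        rw [name_comp]
        simp only [Category.assoc]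
        rw [D.orth i a (Ne.symm ha)]
        simp [name]
    · rw [D.p_eq_zero hi]
      simp [name]
  · unfold name
    have h0 : W.H.map ((D.p i ≫ g ≫ D.p i) ▷ (Mᘁ)) = 0 := by
      have := W.H_tensor_zero (D.p i ≫ g ≫ D.p i) (𝟙 (Mᘁ)) (by
        rw [Functor.map_comp, Functor.map_comp, hg, zero_comp, comp_zero])
      rwa [tensorHom_id] at this
    rw [Functor.map_comp, Functor.map_comp, h0, comp_zero, comp_zero]

theorem nilAt_of_dAt {M : C} (hA : MurreA W M) (h : DAt W (M ⊗ Mᘁ) 0) : NilAt W M := by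
  intro f hf
  obtain ⟨D⟩ := hA
  refine ⟨D.s.card + 1, ?_⟩
  rw [← Category.id_comp (pw f (D.s.card + 1))]
  apply path_zero D (fun i g hg => h.diag D g i hg) f hf D.s.card ∅ (by simp)
  intro t ht
  simp at ht

theorem nilAt_of_locAt {M : C} (h : LocAt W (M ⊗ Mᘁ) 0) : NilAt W M := by
  intro f hf
  have h0 : W.H.map (f ▷ (Mᘁ)) = 0 := by
    have := W.H_tensor_zero f (𝟙 (Mᘁ)) hf
    rwa [tensorHom_id] at this
  obtain ⟨m, hm⟩ := h (f ▷ (Mᘁ)) (by
    intro j _ x _
    rw [h0]
    rfl) (name W f) (by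
    change W.H.map (name W f) = 0
    unfold name
    rw [Functor.map_comp, Functor.map_comp, h0, comp_zero, comp_zero])
  rw [name_pw, pw_comm] at hm
  exact ⟨m + 1, name_injective hm⟩

theorem NilAt.twist {N : C} (h : NilAt W N) (m : ℤ) : NilAt W (N ⊗ W.T m) := by
  intro x hx
  have h0 : W.H.map (x ▷ W.T (-m)) = 0 := by
    have := W.H_tensor_zero x (𝟙 (W.T (-m))) hx
    rwa [tensorHom_id] at this
  obtain ⟨r, hr⟩ := h ((untwist W N m).inv ≫ (x ▷ W.T (-m)) ≫ (untwist W N m).hom) (by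
    rw [Functor.map_comp, Functor.map_comp, h0, zero_comp, comp_zero])
  refine ⟨r, ?_⟩
  have h1 := pw_comp (u := (untwist W N m).inv ≫ (x ▷ W.T (-m)) ≫ (untwist W N m).hom)
    (v := x ▷ W.T (-m)) (a := (untwist W N m).inv) (by simp) r
  rw [hr, zero_comp] at h1
  have h2 : pw (x ▷ W.T (-m)) r = 0 := by
    have := congrArg ((untwist W N m).hom ≫ ·) h1
    simpa using this.symm
  rw [pw_whisker] at h2
  exact whisker_faithful (W := W) _ (-m) h2

theorem NilAt.retract {N M : C} (R : Retract N M) (h : NilAt W M) : NilAt W N := by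
  intro x hx
  obtain ⟨r, hr⟩ := h (R.r ≫ x ≫ R.i) (by
    rw [Functor.map_comp, Functor.map_comp, hx, zero_comp, comp_zero])
  refine ⟨r, ?_⟩
  have h1 := pw_comp (u := x) (v := R.r ≫ x ≫ R.i) (a := R.i) (by
    rw [R.retract_assoc]) r
  rw [hr, comp_zero] at h1
  have := congrArg (· ≫ R.r) h1
  simpa using this

theorem LocAt.retract {N M : C} {l : ℤ} (R : Retract N M) (h : LocAt W M l) : LocAt W N l := by
  intro θ hθ α hα
  obtain ⟨r, hr⟩ := h (R.r ≫ θ ≫ R.i) (by
    intro j hj x hx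
    simp only [W.map_comp_apply]
    rw [hθ j hj _ (W.map_gr _ _ _ hx), map_zero]) (α ≫ R.i) (by
    change W.H.map (α ≫ R.i) = 0
    rw [Functor.map_comp, show W.H.map α = 0 from hα, zero_comp])
  refine ⟨r, ?_⟩
  have h1 := pw_comp (u := θ) (v := R.r ≫ θ ≫ R.i) (a := R.i) (by
    rw [R.retract_assoc]) r
  rw [Category.assoc, ← h1] at hr
  have := congrArg (· ≫ R.r) hr
  simpa using this

theorem LocAt.twist {N : C} {l : ℤ} (h : LocAt W N l) (m : ℤ) :
    LocAt W (N ⊗ W.T m) (l + m) := by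
  intro θ hθ α hα
  have h3 : ∀ (k : ℤ) (_ : k = l) (g : N ⟶ N)
      (_ : ∀ j, j ≠ 2 * l → ∀ x ∈ W.gr N j, (W.H.map g).hom x = 0) (β : W.CH k N),
      W.H.map β = 0 → ∃ r : ℕ, β ≫ pw g r = 0 := by
    rintro _ rfl g hg β hβ
    exact h g hg β hβ
  obtain ⟨r, hr⟩ := h3 (l + m - m) (by ring)
    ((untwist W N m).inv ≫ (θ ▷ W.T (-m)) ≫ (untwist W N m).hom) (by
      intro j hj x hx
      simp only [W.map_comp_apply]
      rw [map_whisker_zero θ (-m) j ?_ _ (W.map_gr _ _ _ hx), map_zero]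
      intro y hy
      exact hθ _ (by omega) y hy) (shiftCH W (l + m) m α) (shiftCH_hom _ m _ hα)
  refine ⟨r, ?_⟩
  apply shiftCH_injective
  rw [shift_eq]
  have h1 := pw_comp (u := (untwist W N m).inv ≫ (θ ▷ W.T (-m)) ≫ (untwist W N m).hom)
    (v := θ ▷ W.T (-m)) (a := (untwist W N m).inv) (by simp) r
  rw [← pw_whisker]
  rw [← Category.assoc (untwist W N m).inv, ← h1, Category.assoc, Iso.inv_hom_id,
    Category.comp_id]
  exact hr

theorem pureAt_of_dAt (hA : ∀ N : C, MurreA W N) (hN : NilHom W) {N : C} {l : ℤ}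
    (h : DAt W N l) : PureAt W N l := by
  intro f hf hf0 α hα
  obtain ⟨D⟩ := hA N
  have hb : (α ≫ f) ≫ D.p (2 * l) = 0 := by
    apply h.kill D
    · rw [Category.assoc, D.idem]
    · rw [Functor.map_comp, hα, zero_comp]
  apply nil_kill hN (α ≫ f) (f ≫ (𝟙 N - D.p (2 * l)) ≫ f)
  · apply W.hext
    intro j x hx
    rw [W.map_comp_apply]
    by_cases hj : j = 2 * l
    · rw [W.map_comp_apply, map_one_sub, D.homology (2 * l) j _ (W.map_gr _ _ _ hx), if_pos hj,
        sub_self, map_zero]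
      rfl
    · rw [hf0 j hj x hx, map_zero]
      rfl
  · have h1 : (α ≫ f) ≫ f = α ≫ f := by rw [Category.assoc, hf]
    rw [← Category.assoc, h1, ← Category.assoc, Preadditive.comp_sub, hb, Category.comp_id,
      sub_zero, h1]

theorem PureAt.kill {N : C} {l : ℤ} (h : PureAt W N l) {f : N ⟶ N} (hf : f ≫ f = f)
    (hf0 : ∀ j, j ≠ 2 * l → ∀ x ∈ W.gr N j, (W.H.map f).hom x = 0) {A : C} (e : W.T l ≅ A)
    (α : A ⟶ N) (hα : W.H.map (α ≫ f) = 0) : α ≫ f = 0 := by
  have h1 := h f hf hf0 (e.hom ≫ α) (by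
    rw [Category.assoc, Functor.map_comp, hα, comp_zero])
  have h2 := congrArg (e.inv ≫ ·) h1
  simpa using h2

theorem PureAt.baseChange (B : BaseChange W W' Φ) {N : C} {l : ℤ}
    (h : PureAt W' (Φ.obj N) l) : PureAt W N l := by
  have hadd := B.additive
  have hfaith := B.faithful
  intro f hf hf0 α hα
  apply Φ.map_injective
  rw [Φ.map_zero, Φ.map_comp]
  refine h.kill (by rw [← Φ.map_comp, hf]) ?_ (B.tate l) (Φ.map α) ?_
  · intro j hj x hx
    obtain ⟨y, rfl⟩ := (B.comp N).surjective x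
    rw [← B.comp_gr] at hx
    rw [← B.comp_nat, hf0 j hj y hx, map_zero]
  · rw [← Φ.map_comp]
    exact bc_hom B hα

theorem PureAt.retract {N M : C} {l : ℤ} (R : Retract N M) (h : PureAt W M l) :
    PureAt W N l := by
  intro f hf hf0 α hα
  have h1 := h (R.r ≫ f ≫ R.i) (by
    simp only [Category.assoc]
    rw [R.retract_assoc, reassoc_of% hf]) (by
      intro j hj x hx
      simp only [W.map_comp_apply]
      rw [hf0 j hj _ (W.map_gr _ _ _ hx), map_zero]) (α ≫ R.i) (by
        have : (α ≫ R.i) ≫ R.r ≫ f ≫ R.i = (α ≫ f) ≫ R.i := by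
          simp only [Category.assoc]
          rw [R.retract_assoc]
        rw [this, Functor.map_comp, hα, zero_comp])
  have h2 := congrArg (· ≫ R.r) h1
  simp only [Category.assoc, R.retract, zero_comp, Category.comp_id] at h2
  rwa [R.retract_assoc] at h2

theorem NilAt.baseChange (B : BaseChange W W' Φ) {N : C} (h : NilAt W' (Φ.obj N)) :
    NilAt W N := by
  have hadd := B.additive
  have hfaith := B.faithful
  intro x hx
  obtain ⟨r, hr⟩ := h (Φ.map x) (bc_hom B hx)
  refine ⟨r, ?_⟩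
  apply Φ.map_injective
  rw [map_pw, hr, Φ.map_zero]

/-- (D*) implies (D) -/
theorem dAt_of_locAt {N : C} {l : ℤ} (h : LocAt W N l) : DAt W N l := by
  apply DAt.of_kill
  intro D α h1 h2
  obtain ⟨r, hr⟩ := h (D.p (2 * l)) (by
    intro j hj x hx
    rw [D.homology _ _ x hx, if_neg hj]) α h2
  have h3 : ∀ r : ℕ, α ≫ pw (D.p (2 * l)) r = α := by
    intro r
    induction r with
    | zero => exact Category.comp_id _
    | succ r ih =>
      change α ≫ pw (D.p (2 * l)) r ≫ D.p (2 * l) = α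
      rw [← Category.assoc, ih, h1]
  rw [h3] at hr
  exact hr

end Pool.Agent.Mid
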