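import Pool.Agent.Mid.Defs
import Pool.Agent.Mid.Nil
import Pool.Agent.Mid.Low
import Pool.Agent.Mid.High

/-!
# Murre's conjectures and the middle-dimensional cycles of the middle weight
-/

set_option autoImplicit false

open CategoryTheory MonoidalCategory Limits TensorProduct
open Pool.Agent.Helper15.Murre Pool.Agent.Helper58.MAD

universe w v u

namespace Pool.Agent.Mid

variable {F : Type w} [Field F] (G : Geometry.{w, v, u} F)

section levels

variable (hS : ∀ (k : G.Fld) (Y : G.Var k), SignConj (G.mot k).W (G.h Y))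
  (hN : ∀ k : G.Fld, NilHom (G.mot k).W)

include hS hN

theorem pureAt_mid {m : ℕ} (hD : MiddleD G m) (k : G.Fld) (Y : G.Var k) (hY : G.dim Y = 2 * m) :
    PureAt (G.mot k).W (G.h Y) m := by
  obtain ⟨K, Φ, hK, ⟨B⟩, hcl⟩ := G.closure k
  obtain ⟨Y', hdim, ⟨e⟩⟩ := hcl Y
  apply PureAt.baseChange B
  exact PureAt.retract ⟨e.hom, e.inv, e.hom_inv_id⟩
    (pureAt_of_dAt (murreA_all G hS hN K) (hN K) (hD K Y' hK (by rw [hdim]; exact hY)))

omit hS in
theorem van_zero (k : G.Fld) (Y : G.Var k) (hY : G.dim Y = 0) (l : ℤ) :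
    VanAt (G.mot k).W (G.h Y) l := by
  have hph := noPhantom_of_nilHom (hN k)
  intro f hf hf0 α
  rcases lt_or_ge 0 l with hl | hl
  · rw [G.CH_above Y l (by omega) α, zero_comp]
  · have h1 : f = 0 := by
      apply hph.idem f hf
      apply (G.mot k).W.hext
      intro j x hx
      rcases lt_or_ge j (2 * l) with hj | hj
      · rw [G.eq_zero_of_out Y (Or.inl (by omega)) hx]
        simp
      · rw [hf0 j hj x hx]; rfl
    rw [h1, comp_zero]

theorem good_zero (hD : MiddleD G 0) (k : G.Fld) (Y : G.Var k) (hY : G.dim Y = 0) (l : ℤ) :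
    GoodAt (G.mot k).W (G.h Y) l := by
  have hph := noPhantom_of_nilHom (hN k)
  rcases lt_trichotomy l 0 with hl | hl | hl
  · intro f hf hf0 α _
    have h1 : f = 0 := by
      apply hph.idem f hf
      apply (G.mot k).W.hext
      intro j x hx
      rcases lt_or_ge (2 * l) j with hj | hj
      · rw [hf0 j hj x hx]; rfl
      · rw [G.eq_zero_of_out Y (Or.inl (by omega)) hx]
        simp
    rw [h1, comp_zero]
  · subst hl
    exact goodAt_of (murreA_all G hS hN k) hph (van_zero G hN k Y hY 0)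
      (pureAt_mid G hS hN hD k Y (by rw [hY]; simp))
  · intro f hf hf0 α _
    rw [G.CH_above Y l (by omega) α, zero_comp]

/-- The induction on the dimension. -/
theorem key (m : ℕ) (hD : ∀ j ≤ m, MiddleD G j) : ∀ (n : ℕ) (k : G.Fld) (Y : G.Var k),
    G.dim Y < n →
    (∀ l : ℤ, (l ≤ m + 1 ∨ G.dim Y ≤ l + m) → VanAt (G.mot k).W (G.h Y) l) ∧
    (∀ l : ℤ, (l ≤ m ∨ G.dim Y ≤ l + m) → GoodAt (G.mot k).W (G.h Y) l) := by
  have hA := murreA_all G hS hN
  intro n
  induction n with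
  | zero =>
    intro k Y hY
    have := G.dim_nonneg Y
    push_cast at hY
    omega
  | succ n ih =>
    -- vanishing over algebraically closed fields
    have hclosed : ∀ (k : G.Fld), G.Closed k → ∀ (Y : G.Var k), G.dim Y < ((n + 1 : ℕ) : ℤ) →
        ∀ l : ℤ, (l ≤ m + 1 ∨ G.dim Y ≤ l + m) → VanAt (G.mot k).W (G.h Y) l := by
      intro k hk Y hY l hl
      push_cast at hY
      rcases (G.dim_nonneg Y).lt_or_eq with hpos | h0
      · obtain ⟨L, ⟨hinj, hsurj⟩, ⟨⟨K, Φ, B, X, S⟩, hX, hloc⟩, ⟨K₂, Φ₂, B₂, X₂, S₂⟩⟩ :=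
          G.lefschetz Y hpos
        have hX' : G.dim X + 1 = G.dim Y := hX
        obtain ⟨-, ⟨σ, hσ⟩, ρ, hρ⟩ := kunneth_step hinj hsurj (hS k Y) B S
          (kunneth_all G hS K X) B₂ S₂ (hS K₂ X₂)
        rcases le_or_gt (2 * l) (G.dim Y) with h2 | h2
        · exact van_low (hA K) (hN K) B S ρ hρ l
            (((ih K X (by omega)).1 l (by omega)).twist 1) h2
        · have hP : GoodAt (G.mot K).W (G.h X ⊗ (G.mot K).W.T 1) l := by
            have := ((ih K X (by omega)).2 (l - 1) (by omega)).twist 1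
            rwa [sub_add_cancel] at this
          exact van_high (hA k) (hN k) (hA K) (hN K) B S (hloc hk) σ hσ l hP
            (fun V => ((ih k V.1 (by have := V.2; omega)).1 l
              (by have := V.2; omega)).twist 1) h2
      · exact van_zero G hN k Y h0.symm l
    have hvan : ∀ (k : G.Fld) (Y : G.Var k), G.dim Y < ((n + 1 : ℕ) : ℤ) →
        ∀ l : ℤ, (l ≤ m + 1 ∨ G.dim Y ≤ l + m) → VanAt (G.mot k).W (G.h Y) l := by
      intro k Y hY l hl
      obtain ⟨K, Φ, hK, ⟨B⟩, hcl⟩ := G.closure k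
      obtain ⟨Y', hdim, ⟨e⟩⟩ := hcl Y
      apply VanAt.baseChange B
      exact VanAt.retract ⟨e.hom, e.inv, e.hom_inv_id⟩
        (hclosed K hK Y' (by rw [hdim]; exact hY) l (by rw [hdim]; exact hl))
    intro k Y hY
    refine ⟨hvan k Y hY, ?_⟩
    intro l hl
    have hv := hvan k Y hY l (by omega)
    push_cast at hY
    rcases (G.dim_nonneg Y).lt_or_eq with hpos | h0
    · obtain ⟨L, ⟨hinj, hsurj⟩, ⟨⟨K, Φ, B, X, S⟩, hX, -⟩, ⟨K₂, Φ₂, B₂, X₂, S₂⟩⟩ :=
        G.lefschetz Y hpos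
      have hX' : G.dim X + 1 = G.dim Y := hX
      obtain ⟨-, ⟨σ, hσ⟩, ρ, hρ⟩ := kunneth_step hinj hsurj (hS k Y) B S
        (kunneth_all G hS K X) B₂ S₂ (hS K₂ X₂)
      rcases lt_trichotomy (2 * l) (G.dim Y) with h2 | h2 | h2
      · exact good_low (hA K) (hN K) B S ρ hρ l
          (((ih K X (by omega)).2 l (by omega)).twist 1) h2
      · obtain ⟨j, rfl⟩ : ∃ j : ℕ, l = (j : ℤ) := ⟨l.toNat, by omega⟩
        exact goodAt_of (hA k) (noPhantom_of_nilHom (hN k)) hv
          (pureAt_mid G hS hN (hD j (by omega)) k Y (by omega))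
      · have hP : GoodAt (G.mot K).W (G.h X ⊗ (G.mot K).W.T 1) l := by
          have := ((ih K X (by omega)).2 (l - 1) (by omega)).twist 1
          rwa [sub_add_cancel] at this
        apply goodAt_of (hA k) (noPhantom_of_nilHom (hN k)) hv
        by_cases h3 : G.dim Y + 1 < 2 * l
        · exact pure_high (hA K) (hN K) B S l σ (hσ (2 * l) h3) hP
        · have h4 : 2 * l = G.dim Y + 1 := by omega
          refine pure_high (hA K) (hN K) B S l ρ ?_ hP
          intro y hy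
          rw [h4] at hy
          have h5 := (G.mot k).W.map_gr L _ _ hy
          have h6 := hρ (G.dim Y + 1) le_rfl _ h5
          rw [(G.mot k).W.map_comp_apply] at h6
          have h7 : ((G.mot k).W.H.map L).hom
              (((G.mot k).W.H.map (L ≫ ρ)).hom y - y) = 0 := by
            rw [map_sub, (G.mot k).W.map_comp_apply L ρ, h6, sub_self]
          have h8 := hinj _ (Submodule.sub_mem _ ((G.mot k).W.map_gr _ _ _ hy) hy) h7
          exact sub_eq_zero.1 h8
    · have h1 := good_zero G hS hN (hD 0 (Nat.zero_le m)) k Y h0.symm l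
      exact h1

theorem vanAt_all (m : ℕ) (hD : ∀ j ≤ m, MiddleD G j) (k : G.Fld) (Y : G.Var k) (l : ℤ)
    (hl : l ≤ m + 1 ∨ G.dim Y ≤ l + m) : VanAt (G.mot k).W (G.h Y) l := by
  have h0 := G.dim_nonneg Y
  exact (key G hS hN m hD ((G.dim Y).toNat + 1) k Y (by push_cast; omega)).1 l hl

theorem goodAt_all (m : ℕ) (hD : ∀ j ≤ m, MiddleD G j) (k : G.Fld) (Y : G.Var k) (l : ℤ)
    (hl : l ≤ m ∨ G.dim Y ≤ l + m) : GoodAt (G.mot k).W (G.h Y) l := by
  have h0 := G.dim_nonneg Y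
  exact (key G hS hN m hD ((G.dim Y).toNat + 1) k Y (by push_cast; omega)).2 l hl

/-- the levels -/
theorem level (m : ℕ) : (RangeB G m ∧ RangeD G m) ↔ ∀ j ≤ m, MiddleD G j := by
  constructor
  · rintro ⟨-, h⟩ j hj k Z _ hZ
    exact h k Z (G.h Z) ⟨Retract.refl _⟩ j (Or.inl (by exact_mod_cast hj))
  · intro hD
    constructor
    · rintro k Y N ⟨R⟩ l hl D i hi
      rw [eq_bot_iff]
      intro α hα
      rw [D.mem_CH] at hα
      have h1 := (VanAt.retract R (vanAt_all G hS hN m hD k Y l hl)) (D.p i) (D.idem i) (by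
        intro j hj x hx
        rw [D.homology i j x hx, if_neg (by omega)]) α
      rw [hα] at h1
      simpa using h1
    · rintro k Y N ⟨R⟩ l hl D
      rw [eq_bot_iff]
      rintro α ⟨hα, hα'⟩
      have h0 := D.mem_CH.1 hα
      have h1 := (GoodAt.retract R (goodAt_all G hS hN m hD k Y l hl)) (D.p (2 * l))
        (D.idem _) (by
        intro j hj x hx
        rw [D.homology _ j x hx, if_neg (by omega)]) α (by rw [h0]; exact hα')
      rw [h0] at h1
      simpa using h1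

/-- all levels: every variety is good -/
theorem good_of_middle (hD : ∀ m, MiddleD G m) (k : G.Fld) (Y : G.Var k) :
    Good (G.mot k).W (G.h Y) := by
  intro f hf l hf0 α hα
  exact goodAt_all G hS hN l.toNat (fun j _ => hD j) k Y l (Or.inl (by omega)) f hf hf0 α hα

theorem pureD_of_middle (hD : ∀ m, MiddleD G m) (k : G.Fld) : PureD (G.mot k).W := by
  intro N hN'
  obtain ⟨Y, t, ⟨R⟩⟩ := G.generated N
  have h : Good (G.mot k).W N := Good.retract R ((good_of_middle G hS hN hD k Y).twist t)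
  rw [eq_bot_iff]
  intro α hα
  have h1 := h (𝟙 N) (Category.comp_id _) 0 (by
    intro j hj x hx
    rw [(G.mot k).W.map_id_apply]
    exact (G.mot k).W.eq_zero_of_mem (i := j) (j := 0) (by omega) hx (by rw [hN']; trivial)) α (by
      rw [Category.comp_id]; exact hα)
  rw [Category.comp_id] at h1
  simpa using h1

end levels

section squares

variable {G} (P : Poincare G)

include P

/-- `h(Y) ⊗ h(Y)ᘁ = h(Y × Y)(-dim Y)` -/
theorem Poincare.iso {k : G.Fld} (Y : G.Var k) : ∃ V : G.Var k, G.dim V = 2 * G.dim Y ∧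
    Nonempty (G.h V ⊗ (G.mot k).W.T (-G.dim Y) ≅ G.h Y ⊗ (G.h Y)ᘁ) := by
  obtain ⟨V, hV, ⟨e⟩⟩ := P.square Y
  obtain ⟨d⟩ := P.dual Y
  exact ⟨V, hV, ⟨whiskerRightIso e _ ≪≫ α_ _ _ _ ≪≫ whiskerLeftIso _ d.symm⟩⟩

omit P in
theorem nilHom_of (h : ∀ (k : G.Fld) (Y : G.Var k), G.Closed k → NilAt (G.mot k).W (G.h Y))
    (k : G.Fld) : NilHom (G.mot k).W := by
  intro N
  obtain ⟨Y, t, ⟨R⟩⟩ := G.generated N
  obtain ⟨K, Φ, hK, ⟨B⟩, hcl⟩ := G.closure k
  obtain ⟨Y', hdim, ⟨e⟩⟩ := hcl Y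
  exact NilAt.retract R (NilAt.twist (NilAt.baseChange B
    (NilAt.retract ⟨e.hom, e.inv, e.hom_inv_id⟩ (h K Y' hK))) t)

theorem Poincare.nilHom_of_middleD (hA : ∀ (k : G.Fld) (M : (G.mot k).C), MurreA (G.mot k).W M)
    (hD : ∀ m, MiddleD G m) (k : G.Fld) : NilHom (G.mot k).W := by
  apply nilHom_of
  intro k Y hk
  apply nilAt_of_dAt (hA k _)
  obtain ⟨V, hV, ⟨e⟩⟩ := P.iso Y
  obtain ⟨n, hn⟩ : ∃ n : ℕ, G.dim Y = n := ⟨(G.dim Y).toNat, by have := G.dim_nonneg Y; omega⟩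
  have h1 : DAt (G.mot k).W (G.h V) n := hD n k V hk (by omega)
  have h2 := h1.twist (-G.dim Y)
  rw [hn, add_neg_cancel, ← hn] at h2
  exact h2.ofIso e

theorem Poincare.nilHom_of_middleNil (hD : ∀ m, MiddleNil G m) (k : G.Fld) :
    NilHom (G.mot k).W := by
  apply nilHom_of
  intro k Y hk
  apply nilAt_of_locAt
  obtain ⟨V, hV, ⟨e⟩⟩ := P.iso Y
  obtain ⟨n, hn⟩ : ∃ n : ℕ, G.dim Y = n := ⟨(G.dim Y).toNat, by have := G.dim_nonneg Y; omega⟩
  have h1 : LocAt (G.mot k).W (G.h V) n := hD n k V hk (by omega)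
  have h2 := h1.twist (-G.dim Y)
  rw [hn, add_neg_cancel, ← hn] at h2
  exact h2.retract ⟨e.inv, e.hom, e.inv_hom_id⟩

theorem Poincare.tfae : List.TFAE [
    ∀ k : G.Fld, MurreAll (G.mot k).W,
    ∀ (k : G.Fld) (M : (G.mot k).C), MurreA (G.mot k).W M ∧ ∀ D : CK (G.mot k).W M, D.MurreD,
    (∀ (k : G.Fld) (M : (G.mot k).C), MurreA (G.mot k).W M) ∧ ∀ m, MiddleD G m,
    (∀ (k : G.Fld) (Y : G.Var k), SignConj (G.mot k).W (G.h Y)) ∧
      (∀ k : G.Fld, LocNil (G.mot k).W),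
    (∀ (k : G.Fld) (Y : G.Var k), SignConj (G.mot k).W (G.h Y)) ∧ ∀ m, MiddleNil G m] := by
  have h0 := Pool.Agent.Helper58.MAD.tfae G
  tfae_have 1 ↔ 2 := h0.out 0 1
  tfae_have 1 ↔ 4 := h0.out 0 3
  tfae_have 2 → 3 := fun h => ⟨fun k M => (h k M).1, fun m k Z _ _ D => (h k _).2 D m⟩
  tfae_have 4 → 5 := by
    rintro ⟨hS, hL⟩
    refine ⟨hS, fun m k Z _ _ => ?_⟩
    have h1 : LocAt (G.mot k).W (G.h Z ⊗ (G.mot k).W.T (-m)) 0 := fun θ hθ α hα =>
      hL k _ θ (fun j hj => hθ j (by simpa using hj)) α hα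
    have h2 := h1.twist m
    rw [zero_add] at h2
    have e : (G.h Z ⊗ (G.mot k).W.T (-m)) ⊗ (G.mot k).W.T m ≅ G.h Z :=
      eqToIso (by rw [neg_neg]) ≪≫ untwist (G.mot k).W (G.h Z) (-m)
    exact h2.retract ⟨e.inv, e.hom, e.inv_hom_id⟩
  tfae_have 3 → 1 := by
    rintro ⟨hA, hD⟩
    have hS : ∀ (k : G.Fld) (Y : G.Var k), SignConj (G.mot k).W (G.h Y) := fun k Y =>
      signConj_of_murreA (hA k _)
    have hN := P.nilHom_of_middleD hA hD
    exact murreAll_of G hS hN (pureD_of_middle G hS hN hD)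
  tfae_have 5 → 1 := by
    rintro ⟨hS, hD⟩
    have hN := P.nilHom_of_middleNil hD
    exact murreAll_of G hS hN (pureD_of_middle G hS hN fun m k Z hk hZ =>
      dAt_of_locAt (hD m k Z hk hZ))
  tfae_finish

end squares

end Pool.Agent.Mid
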