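import Pool.Agent.Helper58.MAD.Final

/-!
# Vanishing at a fixed `l`
-/

set_option autoImplicit false
set_option linter.unusedSectionVars false

open CategoryTheory MonoidalCategory Limits TensorProduct
open Pool.Agent.Helper15.Murre Pool.Agent.Helper58.MAD Pool.Agent.Helper90.MAD

universe w v u

namespace Pool.Agent.Mid

section defs

variable {C : Type u} [Category.{v} C] [Preadditive C] [Linear ℚ C]
  [MonoidalCategory C] [SymmetricCategory C] [RigidCategory C] {F : Type w} [Field F]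

/-- `CH_l(P) = 0` for the direct summands `P` of `N` of weights `< 2l`. -/
def VanAt (W : MotivicHomology C F) (N : C) (l : ℤ) : Prop :=
  ∀ f : N ⟶ N, f ≫ f = f → (∀ j, 2 * l ≤ j → ∀ x ∈ W.gr N j, (W.H.map f).hom x = 0) →
    ∀ α : W.CH l N, α ≫ f = 0

/-- `CH_l(P)_hom = 0` for the direct summands `P` of `N` of weights `≤ 2l`. -/
def GoodAt (W : MotivicHomology C F) (N : C) (l : ℤ) : Prop :=
  ∀ f : N ⟶ N, f ≫ f = f → (∀ j, 2 * l < j → ∀ x ∈ W.gr N j, (W.H.map f).hom x = 0) →
    ∀ α : W.CH l N, W.H.map (α ≫ f) = 0 → α ≫ f = 0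

/-- `CH_l(P)_hom = 0` for the direct summands `P` of `N` of weight `2l`. -/
def PureAt (W : MotivicHomology C F) (N : C) (l : ℤ) : Prop :=
  ∀ f : N ⟶ N, f ≫ f = f → (∀ j, j ≠ 2 * l → ∀ x ∈ W.gr N j, (W.H.map f).hom x = 0) →
    ∀ α : W.CH l N, W.H.map (α ≫ f) = 0 → α ≫ f = 0

end defs

variable {C : Type u} [Category.{v} C] [Preadditive C] [Linear ℚ C]
  [MonoidalCategory C] [SymmetricCategory C] [MonoidalPreadditive C] [MonoidalLinear ℚ C]
  [RigidCategory C] [HasBinaryBiproducts C] [IsIdempotentComplete C]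
  {F : Type w} [Field F] {W : MotivicHomology C F}
variable {C' : Type u} [Category.{v} C'] [Preadditive C'] [Linear ℚ C']
  [MonoidalCategory C'] [SymmetricCategory C'] [MonoidalPreadditive C'] [MonoidalLinear ℚ C']
  [RigidCategory C'] [HasBinaryBiproducts C'] [IsIdempotentComplete C']
  {W' : MotivicHomology C' F} {Φ : C ⥤ C'}

theorem VanAt.kill {N : C} {l : ℤ} (h : VanAt W N l) {f : N ⟶ N} (hf : f ≫ f = f)
    (hf0 : ∀ j, 2 * l ≤ j → ∀ x ∈ W.gr N j, (W.H.map f).hom x = 0) {A : C} (e : W.T l ≅ A)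
    (α : A ⟶ N) : α ≫ f = 0 := by
  have h1 := h f hf hf0 (e.hom ≫ α)
  have h2 := congrArg (e.inv ≫ ·) h1
  simpa using h2

theorem GoodAt.kill {N : C} {l : ℤ} (h : GoodAt W N l) {f : N ⟶ N} (hf : f ≫ f = f)
    (hf0 : ∀ j, 2 * l < j → ∀ x ∈ W.gr N j, (W.H.map f).hom x = 0) {A : C} (e : W.T l ≅ A)
    (α : A ⟶ N) (hα : W.H.map (α ≫ f) = 0) : α ≫ f = 0 := by
  have h1 := h f hf hf0 (e.hom ≫ α) (by
    rw [Category.assoc, Functor.map_comp, hα, comp_zero])
  have h2 := congrArg (e.inv ≫ ·) h1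
  simpa using h2

theorem VanAt.trunc {N : C} {l : ℤ} (h : VanAt W N l) {w : N ⟶ N} {r : ℤ} (hw : IsTrunc W w r)
    (hr : r ≤ 2 * l) {A : C} (e : W.T l ≅ A) (x : A ⟶ N) : x ≫ w = x := by
  have h1 := h.kill (one_sub_idem hw.idem) (fun j hj y hy => by
    rw [map_one_sub, hw.one j (by omega) y hy, sub_self]) e x
  rw [Preadditive.comp_sub, Category.comp_id, sub_eq_zero] at h1
  exact h1.symm

theorem GoodAt.trunc {N : C} {l : ℤ} (h : GoodAt W N l) {w : N ⟶ N} {r : ℤ}
    (hw : IsTrunc W w r) (hr : r ≤ 2 * l + 1) {A : C} (e : W.T l ≅ A) (x : A ⟶ N)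
    (hx : W.H.map (x ≫ (𝟙 N - w)) = 0) : x ≫ w = x := by
  have h1 := h.kill (one_sub_idem hw.idem) (fun j hj y hy => by
    rw [map_one_sub, hw.one j (by omega) y hy, sub_self]) e x hx
  rw [Preadditive.comp_sub, Category.comp_id, sub_eq_zero] at h1
  exact h1.symm

/-- a summand of weights `< 2l` carries no homology class of `CH_l` -/
theorem hom_zero_of_lt {N : C} {l : ℤ} (f : N ⟶ N)
    (hf0 : ∀ j, 2 * l ≤ j → ∀ x ∈ W.gr N j, (W.H.map f).hom x = 0) (α : W.CH l N) :
    W.H.map (α ≫ f) = 0 := by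
  apply W.hext
  intro j x _
  rw [W.map_comp_apply, hf0 (2 * l) le_rfl _ (W.map_gr α (2 * l) x (W.mem_gr_tate l x))]
  rfl

theorem GoodAt.van {N : C} {l : ℤ} (h : GoodAt W N l) : VanAt W N l := fun f hf hf0 α =>
  h f hf (fun j hj => hf0 j hj.le) α (hom_zero_of_lt f hf0 α)

theorem VanAt.retract {N M : C} {l : ℤ} (R : Retract N M) (h : VanAt W M l) : VanAt W N l := by
  intro f hf hf0 α
  have h1 := h (R.r ≫ f ≫ R.i) (by
    simp only [Category.assoc]
    rw [R.retract_assoc, reassoc_of% hf]) (by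
      intro j hj x hx
      simp only [W.map_comp_apply]
      rw [hf0 j hj _ (W.map_gr _ _ _ hx), map_zero]) (α ≫ R.i)
  have h2 := congrArg (· ≫ R.r) h1
  simp only [Category.assoc, R.retract, zero_comp, Category.comp_id] at h2
  rwa [R.retract_assoc] at h2

theorem GoodAt.retract {N M : C} {l : ℤ} (R : Retract N M) (h : GoodAt W M l) :
    GoodAt W N l := by
  intro f hf hf0 α hα
  have h1 := h (R.r ≫ f ≫ R.i) (by
    simp only [Category.assoc]
    rw [R.retract_assoc, reassoc_of% hf]) (by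
      intro j hj x hx
      simp only [W.map_comp_apply]
      rw [hf0 j hj _ (W.map_gr _ _ _ hx), map_zero]) (α ≫ R.i) (by
        have : (α ≫ R.i) ≫ R.r ≫ f ≫ R.i = (α ≫ f) ≫ R.i := by
          simp only [Category.assoc]
          rw [R.retract_assoc]
        rw [this, Functor.map_comp, hα, zero_comp])
  have h2 := congrArg (· ≫ R.r) h1
  simp only [Category.assoc, R.retract, zero_comp, Category.comp_id] at h2
  rwa [R.retract_assoc] at h2

theorem shift_eq {N : C} (l m : ℤ) (f : N ⊗ W.T m ⟶ N ⊗ W.T m)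
    (α : W.CH l (N ⊗ W.T m)) : shiftCH W l m (α ≫ f) =
      shiftCH W l m α ≫ ((untwist W N m).inv ≫ (f ▷ W.T (-m)) ≫ (untwist W N m).hom) := by
  unfold shiftCH
  simp

theorem VanAt.twist {N : C} {l : ℤ} (h : VanAt W N l) (m : ℤ) :
    VanAt W (N ⊗ W.T m) (l + m) := by
  intro f hf hf0 α
  apply shiftCH_injective
  have h3 : ∀ (k : ℤ) (_ : k = l) (g : N ⟶ N) (_ : g ≫ g = g)
      (_ : ∀ j, 2 * l ≤ j → ∀ x ∈ W.gr N j, (W.H.map g).hom x = 0) (β : W.CH k N),
      β ≫ g = 0 := by
    rintro _ rfl g hg hg0 β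
    exact h g hg hg0 β
  rw [shift_eq]
  refine h3 _ (by ring) _ ?_ ?_ _
  · simp only [Category.assoc, Iso.hom_inv_id_assoc]
    rw [← comp_whiskerRight_assoc, hf]
  · intro j hj x hx
    simp only [W.map_comp_apply]
    rw [map_whisker_zero f (-m) j ?_ _ (W.map_gr _ _ _ hx), map_zero]
    intro y hy
    exact hf0 _ (by omega) y hy

theorem GoodAt.twist {N : C} {l : ℤ} (h : GoodAt W N l) (m : ℤ) :
    GoodAt W (N ⊗ W.T m) (l + m) := by
  intro f hf hf0 α hα
  apply shiftCH_injective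
  have h3 : ∀ (k : ℤ) (_ : k = l) (g : N ⟶ N) (_ : g ≫ g = g)
      (_ : ∀ j, 2 * l < j → ∀ x ∈ W.gr N j, (W.H.map g).hom x = 0) (β : W.CH k N),
      W.H.map (β ≫ g) = 0 → β ≫ g = 0 := by
    rintro _ rfl g hg hg0 β
    exact h g hg hg0 β
  rw [shift_eq]
  refine h3 _ (by ring) _ ?_ ?_ _ ?_
  · simp only [Category.assoc, Iso.hom_inv_id_assoc]
    rw [← comp_whiskerRight_assoc, hf]
  · intro j hj x hx
    simp only [W.map_comp_apply]
    rw [map_whisker_zero f (-m) j ?_ _ (W.map_gr _ _ _ hx), map_zero]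
    intro y hy
    exact hf0 _ (by omega) y hy
  · rw [← shift_eq]
    exact shiftCH_hom _ m _ hα

theorem VanAt.baseChange (B : BaseChange W W' Φ) {N : C} {l : ℤ} (h : VanAt W' (Φ.obj N) l) :
    VanAt W N l := by
  have hadd := B.additive
  have hfaith := B.faithful
  intro f hf hf0 α
  apply Φ.map_injective
  rw [Φ.map_zero, Φ.map_comp]
  refine h.kill (by rw [← Φ.map_comp, hf]) ?_ (B.tate l) (Φ.map α)
  intro j hj x hx
  obtain ⟨y, rfl⟩ := (B.comp N).surjective x
  rw [← B.comp_gr] at hx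
  rw [← B.comp_nat, hf0 j hj y hx, map_zero]

/-- decompose the image of `f` by (A) -/
theorem goodAt_of (hA : ∀ N : C, MurreA W N) (hN : NoPhantom W) {N : C} {l : ℤ}
    (h : VanAt W N l) (h' : PureAt W N l) : GoodAt W N l := by
  classical
  intro f hf hf0 α hα
  obtain ⟨P, i, e, hie, hei⟩ := IsIdempotentComplete.idempotents_split N f hf
  obtain ⟨D⟩ := hA P
  have hei' : e ≫ i = f := hei
  have hgr : ∀ j, 2 * l < j → ∀ x ∈ W.gr P j, x = 0 := by
    intro j hj x hx
    have h1 : (W.H.map (i ≫ f ≫ e)).hom x = x := by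
      rw [← hei']
      simp only [Category.assoc]
      rw [reassoc_of% hie, hie, W.map_id_apply]
    rw [← h1]
    simp only [W.map_comp_apply]
    rw [hf0 j hj _ (W.map_gr _ _ _ hx), map_zero]
  have hidem : ∀ q, (e ≫ D.p q ≫ i) ≫ (e ≫ D.p q ≫ i) = e ≫ D.p q ≫ i := by
    intro q
    simp only [Category.assoc]
    rw [reassoc_of% hie]
    rw [← Category.assoc (D.p q), D.idem]
  have key : ∀ q : ℤ, (α ≫ e) ≫ D.p q = 0 := by
    intro q
    rcases lt_trichotomy q (2 * l) with hq | hq | hq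
    · have h1 := h (e ≫ D.p q ≫ i) (hidem q) (by
          intro j hj x hx
          simp only [W.map_comp_apply]
          rw [D.homology q j _ (W.map_gr _ _ _ hx), if_neg (by omega), map_zero]) α
      have h2 := congrArg (· ≫ e) h1
      simp only [Category.assoc, hie, Category.comp_id, zero_comp] at h2
      rw [Category.assoc, h2]
    · have h1 := h' (e ≫ D.p q ≫ i) (hidem q) (by
          intro j hj x hx
          simp only [W.map_comp_apply]
          rw [D.homology q j _ (W.map_gr _ _ _ hx), if_neg (by omega), map_zero]) α (by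
          have : α ≫ e ≫ D.p q ≫ i = (α ≫ f) ≫ e ≫ D.p q ≫ i := by
            rw [← hei']
            simp only [Category.assoc]
            rw [reassoc_of% hie]
          rw [this, Functor.map_comp, hα, zero_comp])
      have h2 := congrArg (· ≫ e) h1
      simp only [Category.assoc, hie, Category.comp_id, zero_comp] at h2
      rw [Category.assoc, h2]
    · have h1 : D.p q = 0 := by
        apply hN.idem _ (D.idem q)
        apply W.hext
        intro j x hx
        rw [D.homology q j x hx]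
        split_ifs with hj
        · rw [hgr j (by omega) x hx]; simp
        · rfl
      rw [h1, comp_zero]
  have h5 : α ≫ e = 0 := by
    apply D.ext_comp
    intro q
    rw [key q, zero_comp]
  rw [← hei', ← Category.assoc, h5, zero_comp]

end Pool.Agent.Mid
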